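import Pool.Agent.MP_008bba_ag.Final

open MvPolynomial
open scoped LinearAlgebra.Projectivization
open Pool.Agent.MP_008bba_ag

namespace Pool.Agent.Results.MP_008bba_ag.PlaneBlowup

/-- There is a set `S` of 36 points of the complex projective plane such that for every
finite set `T` of points containing `S`, the pairs (self-intersection, arithmetic genus) of the strict
transforms, on the blow-up of the plane at `T`, of irreducible plane curves of negative
self-intersection form an infinite set. -/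
theorem result : ∃ S : Finset (ℙ ℂ (Fin 3 → ℂ)), S.card = 36 ∧
    ∀ T : Finset (ℙ ℂ (Fin 3 → ℂ)), S ⊆ T →
    {q : ℤ × ℤ | ∃ (d : ℕ) (F : MvPolynomial (Fin 3) ℂ), F.IsHomogeneous d ∧ Irreducible F ∧
      selfInt T F < 0 ∧ q = (selfInt T F, arithGenus T F)}.Infinite := by
  refine ⟨pts, by simp [pts], fun T hT => ?_⟩
  intro hfin
  obtain ⟨B, hB⟩ := (hfin.image (fun q : ℤ × ℤ => 2 * q.2 - 2 - q.1)).bddAbove
  obtain ⟨n, hn⟩ := exists_nat_gt (max 1 (2 * B) : ℤ)
  have hn1' : (1 : ℤ) ≤ n := (le_max_left _ _).trans hn.le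
  have hn1 : 1 ≤ n := by exact_mod_cast hn1'
  have hnB : 2 * B < n := lt_of_le_of_lt (le_max_right _ _) hn
  obtain ⟨H, hH, hHi, hneg, hK⟩ := exists_negative hT n hn1
  have hmem : 2 * arithGenus T H - 2 - selfInt T H ≤ B :=
    hB ⟨(selfInt T H, arithGenus T H), ⟨_, H, hH, hHi, hneg, rfl⟩, rfl⟩
  linarith

end Pool.Agent.Results.MP_008bba_ag.PlaneBlowup
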